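import Mathlib

set_option autoImplicit false

/-!
# A quadratic polynomial missing a value on `{0,1}^3` over `𝔽_3`, of degree-1 rank `2 > p - 2`

`P = x y + (1 - x) z` takes only the values `0, 1` on `{0,1}^3`.
-/

namespace Pool.Agent.Results.MP_d05de0_co.RankTwo

open MvPolynomial

/-- `P` is a product of polynomials each of degree at most `d`
(degree-`d` rank at most one). -/
def IsProd {p n : ℕ} (d : ℕ) (P : MvPolynomial (Fin n) (ZMod p)) : Prop :=
  ∃ l : List (MvPolynomial (Fin n) (ZMod p)), (∀ Q ∈ l, Q.totalDegree ≤ d) ∧ P = l.prod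

/-- `rk_d P ≤ k`: `P` is a sum of at most `k` polynomials of degree-`d` rank at most one and of
degree at most `deg P`. -/
def RankLE {p n : ℕ} (d k : ℕ) (P : MvPolynomial (Fin n) (ZMod p)) : Prop :=
  ∃ j ≤ k, ∃ f : Fin j → MvPolynomial (Fin n) (ZMod p),
    (∀ i, IsProd d (f i) ∧ (f i).totalDegree ≤ P.totalDegree) ∧ P = ∑ i, f i

/-- `rk_{d,S} P ≤ k`: for some `P₀` of degree at most `deg P` vanishing on `S^n` one has
`rk_d (P - P₀) ≤ k`. -/
def RankSLE {p n : ℕ} (d : ℕ) (S : Set (ZMod p)) (k : ℕ)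
    (P : MvPolynomial (Fin n) (ZMod p)) : Prop :=
  ∃ P₀ : MvPolynomial (Fin n) (ZMod p), P₀.totalDegree ≤ P.totalDegree ∧
    (∀ x : Fin n → ZMod p, (∀ i, x i ∈ S) → eval x P₀ = 0) ∧ RankLE d k (P - P₀)

/-- The rank of `P` relative to `S`, up to constants, is at most `k`:
`rk_{d,S} (P - c) ≤ k` for some constant `c`. -/
def BarRankSLE {p n : ℕ} (d : ℕ) (S : Set (ZMod p)) (k : ℕ)
    (P : MvPolynomial (Fin n) (ZMod p)) : Prop :=
  ∃ c : ZMod p, RankSLE d S k (P - C c)

/-- The statement asked for in Q1. -/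
def Question : Prop :=
  ∀ p : ℕ, p.Prime → 3 ≤ p → ∀ S : Set (ZMod p), S.Nonempty → ∀ (n : ℕ)
    (P : MvPolynomial (Fin n) (ZMod p)), P.totalDegree = 2 →
    (∃ v : ZMod p, ∀ x : Fin n → ZMod p, (∀ i, x i ∈ S) → eval x P ≠ v) →
    BarRankSLE 1 S (p - 2) P

instance : Fact (Nat.Prime 3) := ⟨by norm_num⟩

/-- The counterexample. -/
noncomputable def P3 : MvPolynomial (Fin 3) (ZMod 3) := X 0 * X 1 + (1 - X 0) * X 2

theorem eval_P3 (x : Fin 3 → ZMod 3) : eval x P3 = x 0 * x 1 + (1 - x 0) * x 2 := by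
  simp [P3]

theorem prod_split {n : ℕ} (l : List (MvPolynomial (Fin n) (ZMod 3)))
    (hl : ∀ Q ∈ l, Q.totalDegree ≤ 1) (hne : l.prod ≠ 0) (k : ℕ) (hk : l.prod.totalDegree ≤ k) :
    ∃ (a : ZMod 3) (f : Fin k → MvPolynomial (Fin n) (ZMod 3)),
      (∀ i, (f i).totalDegree ≤ 1) ∧ l.prod = C a * ∏ i, f i := by
  induction l generalizing k with
  | nil => exact ⟨1, fun _ => 1, fun _ => by simp, by simp⟩
  | cons Q l ih =>
    rw [List.prod_cons] at hne hk ⊢
    have hQ : Q ≠ 0 := left_ne_zero_of_mul hne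
    have hl0 : l.prod ≠ 0 := right_ne_zero_of_mul hne
    rw [totalDegree_mul_of_isDomain hQ hl0] at hk
    have hQ1 := hl Q (by simp)
    rcases Nat.eq_zero_or_pos Q.totalDegree with h0 | hpos
    · obtain ⟨a, f, hf, e⟩ := ih (fun Q' h => hl Q' (by simp [h])) hl0 k (by omega)
      refine ⟨coeff 0 Q * a, f, hf, ?_⟩
      rw [e]
      conv_lhs => rw [totalDegree_eq_zero_iff_eq_C.1 h0]
      rw [map_mul, mul_assoc]
    · obtain ⟨k, rfl⟩ : ∃ k', k = k' + 1 := ⟨k - 1, by omega⟩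
      obtain ⟨a, f, hf, e⟩ := ih (fun Q' h => hl Q' (by simp [h])) hl0 k (by omega)
      refine ⟨a, Fin.cons Q f, ?_, ?_⟩
      · intro i
        refine Fin.cases ?_ (fun i => ?_) i
        · simpa using hQ1
        · simpa using hf i
      · rw [e, Fin.prod_univ_succ]
        simp only [Fin.cons_zero, Fin.cons_succ]
        ring

/-- Polynomials of degree at most one are affine. -/
theorem affine_eval (L : MvPolynomial (Fin 3) (ZMod 3)) (h : L.totalDegree ≤ 1) :
    ∃ b a0 a1 a2 : ZMod 3, ∀ x : Fin 3 → ZMod 3,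
      eval x L = b + a0 * x 0 + a1 * x 1 + a2 * x 2 := by
  refine ⟨coeff 0 L, coeff (Finsupp.single 0 1) L, coeff (Finsupp.single 1 1) L,
    coeff (Finsupp.single 2 1) L, fun x => ?_⟩
  have hsub : L.support ⊆ insert 0 (Finset.univ.image fun i : Fin 3 => Finsupp.single i 1) := by
    intro m hm
    have h1 : (m.sum fun _ e => e) ≤ 1 := (le_totalDegree hm).trans h
    rw [Finsupp.sum_fintype _ _ (fun _ => rfl), Fin.sum_univ_three] at h1
    rw [Finset.mem_insert, Finset.mem_image]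
    by_cases h0 : m 0 = 0 ∧ m 1 = 0 ∧ m 2 = 0
    · left
      ext i
      fin_cases i
      · exact h0.1
      · exact h0.2.1
      · exact h0.2.2
    · right
      rcases Nat.eq_zero_or_pos (m 0) with g0 | g0
      · rcases Nat.eq_zero_or_pos (m 1) with g1 | g1
        · refine ⟨2, Finset.mem_univ _, ?_⟩
          ext i
          fin_cases i
          · simp [g0]
          · simp [g1]
          · simp; omega
        · refine ⟨1, Finset.mem_univ _, ?_⟩
          ext i
          fin_cases i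
          · simp [g0]
          · simp; omega
          · simp; omega
      · refine ⟨0, Finset.mem_univ _, ?_⟩
        ext i
        fin_cases i
        · simp; omega
        · simp; omega
        · simp; omega
  rw [eval_eq', Finset.sum_subset hsub (fun m _ hm => by
    rw [notMem_support_iff.1 hm, zero_mul])]
  rw [Finset.sum_insert (by
    rw [Finset.mem_image]
    rintro ⟨i, _, hi⟩
    have := DFunLike.congr_fun hi i
    simp at this)]
  rw [Finset.sum_image (by
    intro i _ j _ hij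
    exact (Finsupp.single_left_inj (by norm_num)).1 hij), Fin.sum_univ_three]
  simp [Fin.prod_univ_three]
  ring

theorem no_solution : ∀ a0 a1 c0 c1 : ZMod 3, a0 * c1 + a1 * c0 = 1 →
    ∀ a2 c2 : ZMod 3, a0 * c2 + a2 * c0 = -1 → a1 * c2 + a2 * c1 = 0 →
    ∀ b d : ZMod 3, a0 * c0 + b * c0 + d * a0 = 0 → a1 * c1 + b * c1 + d * a1 = 0 →
      a2 * c2 + b * c2 + d * a2 ≠ 1 := by
  decide

theorem totalDegree_P3_le : P3.totalDegree ≤ 2 := by
  unfold P3
  have hX : ∀ i : Fin 3, (X i : MvPolynomial (Fin 3) (ZMod 3)).totalDegree ≤ 1 := fun i =>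
    (totalDegree_X i).le
  have h1 : (1 - X 0 : MvPolynomial (Fin 3) (ZMod 3)).totalDegree ≤ 1 := by
    refine (totalDegree_sub _ _).trans (max_le ?_ (hX 0))
    rw [totalDegree_one]; omega
  refine (totalDegree_add _ _).trans (max_le ?_ ?_)
  · exact (totalDegree_mul _ _).trans (add_le_add (hX 0) (hX 1))
  · exact (totalDegree_mul _ _).trans (add_le_add h1 (hX 2))

theorem totalDegree_P3 : P3.totalDegree = 2 := by
  refine le_antisymm totalDegree_P3_le ?_
  by_contra hlt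
  obtain ⟨b, a0, a1, a2, h⟩ := affine_eval P3 (by omega)
  have e0 := h ![0, 0, 0]
  have e1 := h ![1, 0, 0]
  have e2 := h ![0, 1, 0]
  have e3 := h ![1, 1, 0]
  rw [eval_P3] at e0 e1 e2 e3
  simp at e0 e1 e2 e3
  have : (1 : ZMod 3) = 0 := by linear_combination e3 - e1 - e2 + e0
  exact one_ne_zero this

theorem rank_P3 : ¬ BarRankSLE 1 {0, 1} (3 - 2) P3 := by
  rintro ⟨c, P₀, hdeg, hvan, j, hj, f, hf, hsum⟩
  have hd1 : (P3 - C c).totalDegree ≤ 2 := by
    refine (totalDegree_sub _ _).trans (max_le totalDegree_P3_le ?_)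
    rw [totalDegree_C]; omega
  have hd2 : (P3 - C c - P₀).totalDegree ≤ 2 :=
    (totalDegree_sub _ _).trans (max_le hd1 (hdeg.trans hd1))
  have key : ∃ L1 L2 : MvPolynomial (Fin 3) (ZMod 3), L1.totalDegree ≤ 1 ∧ L2.totalDegree ≤ 1 ∧
      P3 - C c - P₀ = L1 * L2 := by
    rcases Nat.eq_zero_or_pos j with h0 | hpos
    · subst h0
      exact ⟨0, 0, by simp, by simp, by rw [hsum]; simp⟩
    · have hj1 : j = 1 := by omega
      subst hj1
      obtain ⟨⟨l, hl, hl'⟩, hfd⟩ := hf 0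
      rw [Fin.sum_univ_one] at hsum
      by_cases hne : l.prod = 0
      · exact ⟨0, 0, by simp, by simp, by rw [hsum, hl', hne]; simp⟩
      · obtain ⟨a, g, hg, e⟩ := prod_split l hl hne 2 (by rw [← hl']; exact hfd.trans hd2)
        refine ⟨C a * g 0, g 1, ?_, hg 1, ?_⟩
        · refine (totalDegree_mul _ _).trans ?_
          rw [totalDegree_C, zero_add]
          exact hg 0
        · rw [hsum, hl', e, Fin.prod_univ_two]
          ring
  obtain ⟨L1, L2, h1, h2, hL⟩ := key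
  obtain ⟨b, a0, a1, a2, e1⟩ := affine_eval L1 h1
  obtain ⟨d, c0, c1, c2, e2⟩ := affine_eval L2 h2
  have E : ∀ x : Fin 3 → ZMod 3, (∀ i, x i ∈ ({0, 1} : Set (ZMod 3))) →
      x 0 * x 1 + (1 - x 0) * x 2 - c =
        (b + a0 * x 0 + a1 * x 1 + a2 * x 2) * (d + c0 * x 0 + c1 * x 1 + c2 * x 2) := by
    intro x hx
    have := congrArg (eval x) hL
    rw [map_sub, map_sub, eval_P3, eval_C, hvan x hx, map_mul, e1, e2, sub_zero] at this
    exact this
  have hmem : ∀ u v w : ZMod 3, u ∈ ({0, 1} : Set (ZMod 3)) → v ∈ ({0, 1} : Set (ZMod 3)) →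
      w ∈ ({0, 1} : Set (ZMod 3)) → ∀ i, (![u, v, w] : Fin 3 → ZMod 3) i ∈
        ({0, 1} : Set (ZMod 3)) := by
    intro u v w hu hv hw i
    fin_cases i
    · exact hu
    · exact hv
    · exact hw
  have z0 : (0 : ZMod 3) ∈ ({0, 1} : Set (ZMod 3)) := Set.mem_insert _ _
  have z1 : (1 : ZMod 3) ∈ ({0, 1} : Set (ZMod 3)) := by simp
  have E000 := E ![0, 0, 0] (hmem 0 0 0 z0 z0 z0)
  have E100 := E ![1, 0, 0] (hmem 1 0 0 z1 z0 z0)
  have E010 := E ![0, 1, 0] (hmem 0 1 0 z0 z1 z0)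
  have E001 := E ![0, 0, 1] (hmem 0 0 1 z0 z0 z1)
  have E110 := E ![1, 1, 0] (hmem 1 1 0 z1 z1 z0)
  have E101 := E ![1, 0, 1] (hmem 1 0 1 z1 z0 z1)
  have E011 := E ![0, 1, 1] (hmem 0 1 1 z0 z1 z1)
  simp only [Matrix.cons_val_zero, Matrix.cons_val_one, Matrix.cons_val, mul_zero, mul_one,
    add_zero, sub_zero, sub_self, zero_sub, zero_add] at E000 E100 E010 E001 E110 E101 E011
  refine no_solution a0 a1 c0 c1 ?_ a2 c2 ?_ ?_ b d ?_ ?_ ?_
  · linear_combination -E110 + E100 + E010 - E000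
  · linear_combination -E101 + E100 + E001 - E000
  · linear_combination -E011 + E010 + E001 - E000
  · linear_combination -E100 + E000
  · linear_combination -E010 + E000
  · linear_combination -E001 + E000

/-- **Theorem.** For `p = 3`, `S = {0, 1}`, `n = 3` the polynomial `P = x₀ x₁ + (1 - x₀) x₂` has
degree `2`, misses the value `2` on `S^n`, and its degree-1 rank relative to `S`, up to constants,
exceeds `p - 2`. In particular the statement of Q1 is false. -/
theorem result :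
    (P3.totalDegree = 2 ∧
      (∀ x : Fin 3 → ZMod 3, (∀ i, x i ∈ ({0, 1} : Set (ZMod 3))) → eval x P3 ≠ 2) ∧
      ¬ BarRankSLE 1 {0, 1} (3 - 2) P3) ∧ ¬ Question := by
  have hmiss : ∀ x : Fin 3 → ZMod 3, (∀ i, x i ∈ ({0, 1} : Set (ZMod 3))) → eval x P3 ≠ 2 := by
    intro x hx
    rw [eval_P3]
    have h : ∀ u v w : ZMod 3, (u = 0 ∨ u = 1) → (v = 0 ∨ v = 1) → (w = 0 ∨ w = 1) →
        u * v + (1 - u) * w ≠ 2 := by decide
    exact h _ _ _ (by simpa using hx 0) (by simpa using hx 1) (by simpa using hx 2)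
  refine ⟨⟨totalDegree_P3, hmiss, rank_P3⟩, fun hQ => ?_⟩
  exact rank_P3 (hQ 3 (by norm_num) le_rfl {0, 1} ⟨0, by simp⟩ 3 P3 totalDegree_P3 ⟨2, hmiss⟩)

end Pool.Agent.Results.MP_d05de0_co.RankTwo
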